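import Mathlib
import Pool.Agent.Lib.MP_0a1b52_lc_SLICE.Asym

/-!
# MP_0a1b52_lc, Q1: the exact number of NOT gates for the clique function on slices

A slice is the set of all graphs on `n` vertices with a given number of edges. We determine exactly
how many NOT gates a small circuit needs if it has to compute `CLIQUE_n` correctly on the slices
whose numbers are in a set `R` with `r` elements.

* Lower bound (no hypothesis on Q1): `⌊log₂ r⌋` NOT gates are necessary, for `r` up to
  `n² / polylog n` slices of the range from `n` to `n (n - 1) / 2 - n √n`, and for all circuits of size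
  up to `2 ^ (n ^ ε)`; e.g. no monotone circuit (`h = 0`) is correct on two slices.
* Upper bound: every circuit which is correct on the slices in `R` can be transformed, with a
  polynomial increase of the size, into one with at most `⌊log₂ r⌋` NOT gates.
* Therefore, for every choice of the sets `R n` and every `h`: there are circuits of polynomial size
  with at most `h n` NOT gates which are correct on the slices in `R n` if and only if Q1 is false
  and `h n ≥ ⌊log₂ |R n|⌋` for all large `n`. So the unconditional lower bound falls short by exactly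
  one NOT gate of the one which is equivalent to Q1.

Proof of the lower bound: the graphs in the slices `a₀ < a₁ < ...` are built from independent hard
regions inside a small vertex set, padded by outer edges which fix the number of edges and the
clique number. If region `i` is open, small circuits without NOT gates cannot separate the
graphs with a large clique in slice `a₂ᵢ` from those without in slice `a₂ᵢ₊₁`; so some chain of NOT
gates changes inside each of the `⌊r / 2⌋` regions, and different regions need different chains.
Upper bound: slice functions (Berkowitz) for each slice of `R` and its complement, and an inverter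
(Markov, Fischer) for the decreasing list of the negative ones.
-/

namespace Pool.Agent.Results.MP_0a1b52_lc.ExactNegations

open Pool.Agent.SliceCircuits

theorem result :
    (∃ C : ℕ,
      -- the lower bound
      (∀ (n s : ℕ) (D : Circuit (EdgeVar n) s) (R : Finset ℕ),
        C * (Nat.log 2 (n * s) + 1) ^ 8 ≤ Nat.sqrt n →
        (∀ a ∈ R, ∀ b ∈ R, a < b → a + C * (Nat.log 2 (n * s) + 1) ^ 4 ≤ b) →
        (∀ a ∈ R, n + C * R.card * (Nat.log 2 (n * s) + 1) ^ 8 ≤ a ∧
          a + n * Nat.sqrt n + C * R.card * (Nat.log 2 (n * s) + 1) ^ 8 ≤ n.choose 2) →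
        D.CorrectOn R → R.card < 2 ^ (D.numNot + 1)) ∧
      -- the upper bound
      ∀ (n s : ℕ) (D : Circuit (EdgeVar n) s) (R : Finset ℕ) (h : ℕ),
        D.CorrectOn R → R.card < 2 ^ (h + 1) →
        ∃ s' ≤ C * (n + s) ^ 6, ∃ D' : Circuit (EdgeVar n) s', D'.numNot ≤ h ∧ D'.CorrectOn R) ∧
    -- the asymptotic form, and the relation with Q1
    ∀ R : ℕ → Finset ℕ, Spread R → ∀ h : ℕ → ℕ,
      (PolySizeOn R h ↔ (∃ n₀ : ℕ, ∀ n ≥ n₀, Nat.log 2 (R n).card ≤ h n) ∧ ¬ Q1) := by
  obtain ⟨C, hC⟩ := lower
  refine ⟨⟨C + 100, ?_, ?_⟩, fun R hR h => dichotomy R hR h⟩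
  · intro n s D R h1 h2 h3 h4
    refine hC n s D R ?_ ?_ ?_ h4
    · exact le_trans (Nat.mul_le_mul_right _ (by omega)) h1
    · intro a ha b hb hab
      exact le_trans (Nat.add_le_add_left (Nat.mul_le_mul_right _ (by omega)) a) (h2 a ha b hb hab)
    · intro a ha
      obtain ⟨h5, h6⟩ := h3 a ha
      have h7 : C * R.card * (Nat.log 2 (n * s) + 1) ^ 8 ≤
          (C + 100) * R.card * (Nat.log 2 (n * s) + 1) ^ 8 :=
        Nat.mul_le_mul_right _ (Nat.mul_le_mul_right _ (by omega))
      exact ⟨by omega, by omega⟩
  · intro n s D R h h1 h2
    obtain ⟨s', h3, D', h4, h5⟩ := upper n s D R h h1 h2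
    exact ⟨s', h3.trans (Nat.mul_le_mul_right _ (by omega)), D', h4, h5⟩

end Pool.Agent.Results.MP_0a1b52_lc.ExactNegations
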